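import Pool.Agent.W175.GF.Final
import Pool.Agent.W253.GF.GTD

/-!
Ax-Lindemann type theorem for the Gamma function: the values of `Γ` at nonconstant algebraic
functions `y_1, .., y_n` of `d` variables with `y_i` not in `ℚ y_j + ℚ` are algebraically
independent over the rational functions.
-/

set_option autoImplicit false

namespace Pool.Agent.Results.MP_26ad15_nt.AxLindemann

theorem result :
    ∀ (d n : ℕ) (Ω : Set (Fin d → ℂ)) (y : Fin n → (Fin d → ℂ) → ℂ),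
      IsOpen Ω → IsPreconnected Ω → Ω.Nonempty →
      (∀ i, AnalyticOnNhd ℂ (y i) Ω) →
      (∀ i, ∃ Q : Polynomial (MvPolynomial (Fin d) ℂ), Q ≠ 0 ∧
        ∀ t ∈ Ω, (Q.map (MvPolynomial.eval t)).eval (y i t) = 0) →
      (∀ i, ∀ v : ℂ, ¬ ∀ t ∈ Ω, y i t = v) →
      (∀ i j, i ≠ j → ∀ p q : ℚ, ¬ ∀ t ∈ Ω, y i t = p * y j t + q) →
      ∀ P : MvPolynomial (Fin n) (MvPolynomial (Fin d) ℂ), P ≠ 0 →
      ∃ t ∈ Ω, (∀ i, ∀ m : ℕ, y i t ≠ -m) ∧
        MvPolynomial.eval (fun i => Complex.Gamma (y i t)) (P.map (MvPolynomial.eval t)) ≠ 0 :=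
  Pool.Agent.W253.GF.gtd Pool.Agent.W175.GF.gtF

end Pool.Agent.Results.MP_26ad15_nt.AxLindemann
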