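import Pool.Agent.W175.GF.Sub

/-!
The Schanuel-type conjecture for the Gamma function for tuples of transcendence degree one over an
arbitrary countable field: at most countably many exceptions.
-/

set_option autoImplicit false

namespace Pool.Agent.Results.MP_26ad15_nt.TrdegOne

theorem result :
    ∀ (F : Subfield ℂ), (F : Set ℂ).Countable → ∀ n : ℕ,
      {z : Fin n → ℂ | (∃ i, ¬ IsAlgebraic F (z i)) ∧
        Algebra.trdeg F (IntermediateField.adjoin F (Set.range z)) ≤ 1 ∧
        (∀ i j, i ≠ j → ∀ p q : ℚ, z i ≠ p * z j + q) ∧
        Algebra.trdeg F (IntermediateField.adjoin F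
          (Set.range z ∪ Set.range fun i => Complex.Gamma (z i))) <
            (Nat.card {i // ¬ IsAlgebraic F (z i)} : Cardinal) + 1}.Countable := by
  intro F hF n
  exact Pool.Agent.W175.GF.sub_countable F hF n

end Pool.Agent.Results.MP_26ad15_nt.TrdegOne
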